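import Mathlib
import Pool.Agent.H18.Wd.Quo
import Pool.Agent.H18.Wd.RInt

set_option autoImplicit false

/-!
# `ζ(2n) / ζ(n)²` and the quotients of the Bessel and Poisson means of the tails of `ζ(k)`

Let `t(n) = ζ(2n) / ζ(n)²`. For an integer `k ≥ 2` and a complex number `z` with `I_0(z) ≠ 0` let
`R_k(z) = I_0(z)^(-1) * ∑_j (z / 2)^(2j) / j!^2 * ∑_{n > j} 1/n^k`, the mean of the tails `∑_{n > j} 1/n^k` of `ζ(k)` with the weights
`(z / 2)^(2j) / j!^2` of the Bessel function `I_0(z) = ∑_j (z / 2)^(2j) / j!^2`, and let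
`T_k(x) = exp (-x) * ∑_j x^j/j! * ∑_{n > j} 1/n^k` be their Poisson mean.

(1) `R_k(0) = T_k(0) = ζ(k)`, and, for `k ≥ 2`,
`R_k(z) = 1/(k-1)! * ∫_0^∞ t^(k-1) / (exp t - 1) * I_0(z exp (-t/2)) / I_0(z) dt`,
`T_k(x) = 1/(k-1)! * ∫_0^∞ t^(k-1) / (exp t - 1) * exp (-x (1 - exp (-t))) dt`.

So `t(n)` is the value at `0` of the functions `ζ(2n) / R_n(z)²`, `R_{2n}(z) / R_n(z)²`, `ζ(2n) / T_n(x)²` and `T_{2n}(x) / T_n(x)²`.

Let `𝓔` be the field generated by all numbers `b`, `exp b`, `I_0(b)`, `I_1(b)`, `A_k(b) = ∑_{n ≥ 1} (b / 2)^(2n) / (n!^2 n^k)`,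
`C_k(b) = ∑_{n ≥ 1} H_n (b / 2)^(2n) / (n!^2 n^k)` (`k ≥ 0`, `H_n` the harmonic numbers) and
`W_k(b) = (b / 2) (I_0(b) V_k'(b) - I_1(b) V_k(b))` (`k ≥ 2`), where `b` is algebraic and
`V_k(z) = ∑_n H_n^(k) (z / 2)^(2n) / n!^2`, `H_n^(k) = ∑_{j ≤ n} 1/j^k`.

Let `Z` be a set of algebraic numbers `z ≠ 0` with different squares and `X` a set of algebraic numbers such that `x + x' ≠ 0` for all
`x, x'` in `X`. A point `p` is a member of `Z` or of `X` (a number in both sets gives two points), and `D_p(k) = R_k(z)` or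
`D_p(k) = T_k(x)`. Let `y_1, …, y_r` be complex numbers.

(2) Let `N` be a set of odd integers `n ≥ 3` such that `π` and the `t(n)`, `n ∈ N`, are algebraic over `L = 𝓔(y_1, …, y_r)`.
For all but at most `r` points `p` the numbers `ζ(2n) / D_p(n)²` and `D_p(2n) / D_p(n)²`, `n ∈ N`, are algebraically independent
over `L`. More precisely, let `A` be a finite set of points and `B ⊆ N` a finite set such that `D_p(n) ≠ 0` for `p ∈ A`, `n ∈ B`. The
sum over `p ∈ A` of the defects `2 |B| - trdeg_L L(ζ(2n) / D_p(n)², D_p(2n) / D_p(n)² : n ∈ B)` is at most `r`. At most `r` of the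
numbers `y_1, …, y_r` and of all these quotients (with `D_p(n) ≠ 0`, `n ∈ N`, all `p`) are algebraic over `𝓔`, and for every `m` the
numbers `y_1, …, y_r` and any `m` of these quotients generate a field of transcendence degree at least `m` over `𝓔`.

(3) So for odd integers `n_1, …, n_m ≥ 3` and for all but at most `m + 1` points `p` the numbers `ζ(2n) / D_p(n)²`,
`D_p(2n) / D_p(n)²`, `n = n_1, …, n_m`, are algebraically independent over `𝓔(π, ζ(n_1), …, ζ(n_m))`; and at most `m + 1` of the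
numbers `π, t(n_1), …, t(n_m)` and of all these quotients are algebraic over `𝓔`.

(4) Let `N` be a set of odd integers `n ≥ 3` for which `t(n)` is algebraic over `𝓔(π)` (for example rational). For all but at most
one point `p` the numbers `ζ(2n) / D_p(n)²` and `D_p(2n) / D_p(n)²`, `n ∈ N`, are algebraically independent over `𝓔(π)`, and at most
one of `π` and of all these quotients is algebraic over `𝓔`.

The proof: the numbers `ζ(k) - D_p(k)` (`k ≥ 2`, all points `p`) are algebraically independent over `𝓔`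
(`Pool/Agent/H18/Wd`, the hand-in `MP_e48a95_nt.BesselMeansOfZetaTails`; iterated integrals with respect to `dx/x` of words in the letters
`I_0(a x)`, `I_0(a x)^2`, `I_0(a x)^(-2)`, derivations of the shuffle algebra, and the method of Siegel and Shidlovskii), and
exchange arguments for transcendence bases.
-/

namespace Pool.Agent.Results.MP_f1a024_nt.BesselDampedQuotients

open Set MeasureTheory

/-- `H_n^(k) = ∑_{j ≤ n} 1/j^k` -/
noncomputable def harmonic (k n : ℕ) : ℂ := ∑ j ∈ Finset.range n, 1 / ((j : ℂ) + 1) ^ k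

/-- `I_0(z)` -/
noncomputable def I0 (z : ℂ) : ℂ := ∑' n : ℕ, (z ^ 2 / 4) ^ n / (n.factorial : ℂ) ^ 2

/-- `I_1(z)` -/
noncomputable def I1 (z : ℂ) : ℂ := z / 2 * ∑' n : ℕ, (z ^ 2 / 4) ^ n / ((n.factorial : ℂ) * ((n + 1).factorial : ℂ))

/-- `A_k(z) = ∑_{n ≥ 1} (z / 2)^(2n) / (n!^2 n^k)` -/
noncomputable def A (k : ℕ) (z : ℂ) : ℂ :=
  ∑' n : ℕ, (z ^ 2 / 4) ^ (n + 1) / (((n + 1).factorial : ℂ) ^ 2 * ((n : ℂ) + 1) ^ k)

/-- `C_k(z) = ∑_{n ≥ 1} H_n (z / 2)^(2n) / (n!^2 n^k)` -/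
noncomputable def C (k : ℕ) (z : ℂ) : ℂ :=
  ∑' n : ℕ, harmonic 1 (n + 1) * ((z ^ 2 / 4) ^ (n + 1) / (((n + 1).factorial : ℂ) ^ 2 * ((n : ℂ) + 1) ^ k))

/-- `V_k(z) = ∑_n H_n^(k) (z / 2)^(2n) / n!^2` -/
noncomputable def V (k : ℕ) (z : ℂ) : ℂ := ∑' n : ℕ, harmonic k n * ((z ^ 2 / 4) ^ n / (n.factorial : ℂ) ^ 2)

/-- `(z / 2) V_k'(z)` -/
noncomputable def dV (k : ℕ) (z : ℂ) : ℂ := ∑' n : ℕ, (n : ℂ) * (harmonic k n * ((z ^ 2 / 4) ^ n / (n.factorial : ℂ) ^ 2))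

/-- `W_k(z) = (z / 2) (I_0(z) V_k'(z) - I_1(z) V_k(z))` -/
noncomputable def W (k : ℕ) (z : ℂ) : ℂ := I0 z * dV k z - z / 2 * I1 z * V k z

/-- `R_k(z)` -/
noncomputable def R (k : ℕ) (z : ℂ) : ℂ :=
  (∑' j : ℕ, (z ^ 2 / 4) ^ j / (j.factorial : ℂ) ^ 2 * ∑' i : ℕ, 1 / ((i : ℂ) + j + 1) ^ k) / I0 z

/-- `T_k(z)` -/
noncomputable def T (k : ℕ) (z : ℂ) : ℂ :=
  Complex.exp (-z) * ∑' j : ℕ, z ^ j / j.factorial * ∑' i : ℕ, 1 / ((i : ℂ) + j + 1) ^ k

/-- the field `𝓔` -/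
noncomputable def baseField : IntermediateField ℚ ℂ := IntermediateField.adjoin ℚ
  {w | ∃ b : ℂ, IsAlgebraic ℚ b ∧ (w = b ∨ w = Complex.exp b ∨ w = I0 b ∨ w = I1 b ∨
    ∃ k : ℕ, w = A k b ∨ w = C k b ∨ w = W (k + 2) b)}

/-- the field `𝓔(y_j : j)` -/
noncomputable def fieldWith {τ : Type} (y : τ → ℂ) : IntermediateField baseField ℂ := IntermediateField.adjoin baseField (range y)

/-- `t(n)` -/
noncomputable def t (n : ℕ) : ℂ := riemannZeta ((2 * n : ℕ) : ℂ) / riemannZeta n ^ 2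

/-- the points of the two kinds -/
inductive Point : Type
  /-- the point `z`, with the means `R_k(z)` -/
  | bessel (z : ℂ) : Point
  /-- the point `x`, with the means `T_k(x)` -/
  | poisson (x : ℂ) : Point

/-- the means `D_p(k)` -/
noncomputable def D : Point → ℕ → ℂ
  | .bessel z, k => R k z
  | .poisson x, k => T k x

/-- the points given by the members of `Z` and `X` -/
def points (Z X : Set ℂ) : Set Point := {p | (∃ z ∈ Z, p = .bessel z) ∨ ∃ x ∈ X, p = .poisson x}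

/-- the quotients `ζ(2n) / D_p(n)²` and `D_p(2n) / D_p(n)²` -/
noncomputable def quotient (p : Point) (n : ℕ) (b : Bool) : ℂ :=
  bif b then riemannZeta ((2 * n : ℕ) : ℂ) / D p n ^ 2 else D p (2 * n) / D p n ^ 2

/-- algebraic numbers `x` such that `x + x' ≠ 0` for all `x, x'` in the set -/
def NoOpposite (X : Set ℂ) : Prop := ∀ x ∈ X, IsAlgebraic ℚ x ∧ ∀ x' ∈ X, x + x' ≠ 0

/-- algebraic numbers `z ≠ 0` with different squares -/
def DifferentSquares (Z : Set ℂ) : Prop :=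
  ∀ z ∈ Z, IsAlgebraic ℚ z ∧ z ≠ 0 ∧ ∀ z' ∈ Z, z ^ 2 = z' ^ 2 → z = z'

/-- the points `p` for which the quotients with `n ∈ N` are not algebraically independent over `𝓔(y_j : j)` -/
def exceptional {τ : Type} (y : τ → ℂ) (N : Set ℕ) (P : Set Point) : Set Point :=
  {p | p ∈ P ∧ ¬ AlgebraicIndependent (fieldWith y) (fun q : N × Bool => quotient p q.1.1 q.2)}

/-- the quotients of the points in `P` with `n ∈ N` and `D_p(n) ≠ 0` -/
def names (N : Set ℕ) (P : Set Point) : Set (Point × ℕ × Bool) := {q | q.1 ∈ P ∧ q.2.1 ∈ N ∧ D q.1 q.2.1 ≠ 0}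

/-- the value -/
noncomputable def value (q : Point × ℕ × Bool) : ℂ := quotient q.1 q.2.1 q.2.2

/-- the indices `j` for which `y_j` is algebraic over `𝓔`, and the names of the quotients which are algebraic over `𝓔` -/
def algebraicOnes {τ : Type} (y : τ → ℂ) (N : Set ℕ) (P : Set Point) : Set (τ ⊕ (Point × ℕ × Bool)) :=
  {i | Sum.elim (fun j => IsAlgebraic baseField (y j)) (fun q => q ∈ names N P ∧ IsAlgebraic baseField (value q)) i}

/-- the numbers `π, t(n_1), …, t(n_m)` -/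
noncomputable def constants {m : ℕ} (n : Fin m → ℕ) : Fin (m + 1) → ℂ := Fin.cons (Real.pi : ℂ) fun i => t (n i)

/-- the numbers `π, ζ(n_1), …, ζ(n_m)` -/
noncomputable def zetas {m : ℕ} (n : Fin m → ℕ) : Fin (m + 1) → ℂ := Fin.cons (Real.pi : ℂ) fun i => riemannZeta (n i)

open Pool.Agent.N902.EW Pool.Agent.H18.Bes Pool.Agent.H18.Wd

theorem harmonic_eq (k n : ℕ) : harmonic k n = hz ℂ k n := rfl
theorem I0_eq (z : ℂ) : I0 z = Pool.Agent.H18.Bes.I0 z := rfl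
theorem I1_eq (z : ℂ) : I1 z = Pool.Agent.H18.Bes.I1 z := rfl
theorem A_eq (k : ℕ) (z : ℂ) : A k z = Av k z := rfl
theorem C_eq (k : ℕ) (z : ℂ) : C k z = Cv k z := rfl
theorem V_eq (k : ℕ) (z : ℂ) : V k z = Vv k z := rfl
theorem dV_eq (k : ℕ) (z : ℂ) : dV k z = Vd k z := rfl
theorem W_eq (k : ℕ) (z : ℂ) : W k z = Wv k z := rfl
theorem R_eq (k : ℕ) (z : ℂ) : R k z = RT k z := rfl
theorem T_eq (k : ℕ) (z : ℂ) : T k z = PT k z := rfl

theorem A_zero (b : ℂ) : A 0 b = I0 b - 1 := by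
  have h1 : Summable fun j : ℕ => (b ^ 2 / 4) ^ j / (j.factorial : ℂ) ^ 2 := (summ_I0 (b ^ 2 / 4)).of_norm
  rw [I0, h1.tsum_eq_zero_add, A]
  simp

theorem baseField_eq : baseField = KB := by
  refine le_antisymm (IntermediateField.adjoin_le_iff.2 ?_) (IntermediateField.adjoin.mono _ _ _ ?_)
  · have hsub : GK ⊆ KB := IntermediateField.subset_adjoin ℚ GK
    rintro w ⟨b, hb, rfl | rfl | rfl | rfl | ⟨k, rfl | rfl | rfl⟩⟩
    · exact hsub (Or.inl (Or.inl hb))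
    · exact hsub (Or.inl (Or.inr ⟨b, hb, rfl⟩))
    · exact hsub (Or.inr ⟨b, hb, Or.inl rfl⟩)
    · exact hsub (Or.inr ⟨b, hb, Or.inr (Or.inl rfl)⟩)
    · rcases k with _ | k
      · rw [A_zero]
        exact KB.sub_mem (hsub (Or.inr ⟨b, hb, Or.inl rfl⟩)) KB.one_mem
      · exact hsub (Or.inr ⟨b, hb, Or.inr (Or.inr ⟨k, Or.inl rfl⟩)⟩)
    · exact hsub (Or.inr ⟨b, hb, Or.inr (Or.inr ⟨k, Or.inr (Or.inl rfl)⟩)⟩)
    · exact hsub (Or.inr ⟨b, hb, Or.inr (Or.inr ⟨k, Or.inr (Or.inr rfl)⟩)⟩)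
  · rintro w ((hw | ⟨b, hb, rfl⟩) | ⟨b, hb, rfl | rfl | ⟨k, rfl | rfl | rfl⟩⟩)
    · exact ⟨w, hw, Or.inl rfl⟩
    · exact ⟨b, hb, Or.inr (Or.inl rfl)⟩
    · exact ⟨b, hb, Or.inr (Or.inr (Or.inl rfl))⟩
    · exact ⟨b, hb, Or.inr (Or.inr (Or.inr (Or.inl rfl)))⟩
    · exact ⟨b, hb, Or.inr (Or.inr (Or.inr (Or.inr ⟨k + 1, Or.inl rfl⟩)))⟩
    · exact ⟨b, hb, Or.inr (Or.inr (Or.inr (Or.inr ⟨k, Or.inr (Or.inl rfl)⟩)))⟩
    · exact ⟨b, hb, Or.inr (Or.inr (Or.inr (Or.inr ⟨k, Or.inr (Or.inr rfl)⟩)))⟩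

theorem pts {Z : Set ℂ} (hZ : DifferentSquares Z) : Pts Z :=
  ⟨fun z hz => ⟨(hZ z hz).1, (hZ z hz).2.1⟩, fun z hz w hw h => (hZ z hz).2.2 w hw h⟩

/-- `I_0` has no algebraic zeros -/
theorem I0_ne_zero {z : ℂ} (hz : IsAlgebraic ℚ z) : I0 z ≠ 0 := I0_ne hz

section

variable {Z X : Set ℂ}

/-- the point -/
def pt : Z ⊕ X → Point := Sum.elim (fun z => .bessel z.1) fun x => .poisson x.1

theorem D_pt (p : Z ⊕ X) (k : ℕ) : D (pt p) k = DM Z X p k := by
  rcases p with z | x <;> rfl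

theorem pt_surj {p : Point} (hp : p ∈ points Z X) : ∃ q : Z ⊕ X, pt q = p := by
  rcases hp with ⟨z, hz, rfl⟩ | ⟨x, hx, rfl⟩
  · exact ⟨Sum.inl ⟨z, hz⟩, rfl⟩
  · exact ⟨Sum.inr ⟨x, hx⟩, rfl⟩

theorem pt_inj : Function.Injective (pt (Z := Z) (X := X)) := by
  rintro (z | x) (w | y) h
  · exact congrArg Sum.inl (Subtype.ext (Point.bessel.inj h))
  · cases h
  · cases h
  · exact congrArg Sum.inr (Subtype.ext (Point.poisson.inj h))

theorem quotient_pt (p : Z ⊕ X) (n : ℕ) (b : Bool) : quotient (pt p) n b = quo (DM Z X p) n b := by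
  rw [quotient, quo, D_pt, D_pt]

theorem alg_iff {τ : Type} (y : τ → ℂ) (z : ℂ) : IsAlgebraic (fieldWith y) z ↔ z ∈ clf KB (range y) := by
  rw [mem_clf]
  unfold fieldWith
  rw [baseField_eq]

theorem alg_iff' (z : ℂ) : IsAlgebraic baseField z ↔ IsAlgebraic KB z := by
  rw [baseField_eq]

theorem ind_iff {τ : Type} (y : τ → ℂ) {ι : Type} (z : ι → ℂ) : AlgebraicIndependent (fieldWith y) z ↔
    AlgebraicIndependent (IntermediateField.adjoin KB (range y)) z := by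
  unfold fieldWith
  rw [baseField_eq]

theorem trdeg_eq {τ : Type} (y : τ → ℂ) (s : Set ℂ) :
    Algebra.trdeg (fieldWith y) (IntermediateField.adjoin (fieldWith y) s) =
      Algebra.trdeg (IntermediateField.adjoin KB (range y))
        (IntermediateField.adjoin (IntermediateField.adjoin KB (range y)) s) := by
  unfold fieldWith
  rw [baseField_eq]

variable {N : Set ℕ}

theorem exceptional_le {r : ℕ} {y : Fin r → ℂ} (hpi : IsAlgebraic (fieldWith y) (Real.pi : ℂ))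
    (hN : ∀ n ∈ N, 3 ≤ n ∧ Odd n ∧ IsAlgebraic (fieldWith y) (t n)) (hZ : DifferentSquares Z) (hX : NoOpposite X) :
    (exceptional y N (points Z X)).encard ≤ (r : ℕ∞) := by
  refine le_trans ?_ (exc_quo (N := N) (y := y) hX (pts hZ) (fun n hn => ⟨(hN n hn).1, (hN n hn).2.1,
    (alg_iff _ _).1 (hN n hn).2.2⟩) ((alg_iff _ _).1 hpi))
  refine le_trans (encard_le_encard ?_) (encard_image_le (pt (Z := Z) (X := X)) _)
  rintro p ⟨hp, hp'⟩
  obtain ⟨q, rfl⟩ := pt_surj hp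
  refine ⟨q, ?_, rfl⟩
  rw [ind_iff] at hp'
  simp only [quotient_pt] at hp'
  exact hp'

theorem defects {r : ℕ} {y : Fin r → ℂ} (hpi : IsAlgebraic (fieldWith y) (Real.pi : ℂ))
    (hN : ∀ n ∈ N, 3 ≤ n ∧ Odd n ∧ IsAlgebraic (fieldWith y) (t n)) (hZ : DifferentSquares Z) (hX : NoOpposite X)
    (A : Finset Point) (B : Finset ℕ) (hA : (A : Set Point) ⊆ points Z X)
    (hB : (B : Set ℕ) ⊆ N) (h0 : ∀ p ∈ A, ∀ n ∈ B, D p n ≠ 0) :
    ((A.card * (2 * B.card) : ℕ) : Cardinal) ≤ (r : Cardinal) + ∑ p ∈ A, Algebra.trdeg (fieldWith y)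
      (IntermediateField.adjoin (fieldWith y) {w | ∃ n ∈ B, ∃ b, w = quotient p n b}) := by
  classical
  choose f hf using fun p : A => pt_surj (hA p.2)
  have hfi : Function.Injective f := by
    intro i j hij
    apply Subtype.ext
    rw [← hf i, ← hf j, hij]
  have h1 := zeta_mem_of_quo (y := y) (N := N) (fun n hn => ⟨(hN n hn).1, (hN n hn).2.1, (alg_iff _ _).1 (hN n hn).2.2⟩)
    ((alg_iff _ _).1 hpi)
  have h := def_quo (N := N) (y := y) hX (pts hZ) (fun n hn => ⟨(hN n hn).1, (hN n hn).2.1⟩) ((alg_iff _ _).1 hpi) h1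
    (Finset.univ.map ⟨f, hfi⟩) B hB (by
      intro p hp n hn
      obtain ⟨q, _, rfl⟩ := Finset.mem_map.1 hp
      show DM Z X (f q) n ≠ 0
      rw [← D_pt, hf]
      exact h0 q.1 q.2 n hn)
  rw [Finset.card_map, Finset.card_univ, Fintype.card_coe, Finset.sum_map] at h
  refine h.trans (le_of_eq ?_)
  congr 1
  rw [← Finset.sum_attach A]
  refine Finset.sum_congr rfl fun p _ => ?_
  have e : {w | ∃ n ∈ B, ∃ b, w = quotient p.1 n b} = {w | ∃ n ∈ B, ∃ b, w = quo (DM Z X (f p)) n b} := by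
    ext w
    simp only [mem_ofPred_eq, ← quotient_pt, hf]
  rw [e]
  exact (trdeg_eq _ _).symm

/-- the names as names of the counting theorem -/
def dec : In Z X N → Point × ℕ × Bool := fun q => (pt q.1.1, q.1.2)

theorem value_dec (i : In Z X N) : value (dec i) = tn i := quotient_pt _ _ _

theorem dec_surj {i : Point × ℕ × Bool} (h : i ∈ names N (points Z X)) : ∃ j : In Z X N, dec j = i := by
  obtain ⟨p, n, b⟩ := i
  obtain ⟨h1, h2, h3⟩ := h
  obtain ⟨q, hq⟩ := pt_surj h1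
  refine ⟨⟨(q, n, b), h2, ?_⟩, ?_⟩
  · show DM Z X q n ≠ 0
    rw [← D_pt, hq]
    exact h3
  · show (pt q, (n, b)) = _
    rw [hq]

theorem count {r : ℕ} {y : Fin r → ℂ} (hpi : IsAlgebraic (fieldWith y) (Real.pi : ℂ))
    (hN : ∀ n ∈ N, 3 ≤ n ∧ Odd n ∧ IsAlgebraic (fieldWith y) (t n)) (hZ : DifferentSquares Z) (hX : NoOpposite X) :
    (algebraicOnes y N (points Z X)).encard ≤ (r : ℕ∞) := by
  have h1 := zeta_mem_of_quo (y := y) (N := N) (fun n hn => ⟨(hN n hn).1, (hN n hn).2.1, (alg_iff _ _).1 (hN n hn).2.2⟩)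
    ((alg_iff _ _).1 hpi)
  have h := count_n (N := N) (y := y) hX (pts hZ) (fun n hn => ⟨(hN n hn).1, (hN n hn).2.1⟩) ((alg_iff _ _).1 hpi) h1
  rw [Fintype.card_fin] at h
  refine le_trans ?_ h
  refine le_trans (encard_le_encard ?_) (encard_image_le (Sum.map id (dec (Z := Z) (X := X) (N := N))) _)
  rintro (j | i) hi
  · exact ⟨Sum.inl j, (alg_iff' _).1 hi, rfl⟩
  · obtain ⟨h1, h2⟩ := hi
    obtain ⟨i', rfl⟩ := dec_surj h1
    refine ⟨Sum.inr i', ?_, rfl⟩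
    show IsAlgebraic KB (tn i')
    rw [← value_dec]
    exact (alg_iff' _).1 h2

theorem degree {r : ℕ} {y : Fin r → ℂ} (hpi : IsAlgebraic (fieldWith y) (Real.pi : ℂ))
    (hN : ∀ n ∈ N, 3 ≤ n ∧ Odd n ∧ IsAlgebraic (fieldWith y) (t n)) (hZ : DifferentSquares Z) (hX : NoOpposite X)
    (S : Finset (Point × ℕ × Bool)) (hS : (S : Set (Point × ℕ × Bool)) ⊆ names N (points Z X)) :
    (S.card : Cardinal) ≤ Algebra.trdeg baseField
      (IntermediateField.adjoin baseField (range y ∪ value '' (S : Set (Point × ℕ × Bool)))) := by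
  classical
  choose f hf using fun i : S => dec_surj (hS i.2)
  have hfi : Function.Injective f := by
    intro i j hij
    apply Subtype.ext
    rw [← hf i, ← hf j, hij]
  have h1 := zeta_mem_of_quo (y := y) (N := N) (fun n hn => ⟨(hN n hn).1, (hN n hn).2.1, (alg_iff _ _).1 (hN n hn).2.2⟩)
    ((alg_iff _ _).1 hpi)
  have h := trdeg_n (N := N) (y := y) hX (pts hZ) (fun n hn => ⟨(hN n hn).1, (hN n hn).2.1⟩) ((alg_iff _ _).1 hpi) h1
    (Finset.univ.map ⟨f, hfi⟩)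
  rw [Finset.card_map, Finset.card_univ, Fintype.card_coe] at h
  have e : tn '' ((Finset.univ.map ⟨f, hfi⟩ : Finset (In Z X N)) : Set (In Z X N)) =
      value '' (S : Set (Point × ℕ × Bool)) := by
    ext z
    constructor
    · rintro ⟨i, hi, rfl⟩
      simp only [Finset.coe_map, Finset.coe_univ, image_univ, mem_range, Function.Embedding.coeFn_mk] at hi
      obtain ⟨j, rfl⟩ := hi
      refine ⟨j, j.2, ?_⟩
      rw [← value_dec, hf]
    · rintro ⟨i, hi, rfl⟩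
      refine ⟨f ⟨i, hi⟩, ?_, ?_⟩
      · simp
      · rw [← value_dec, hf]
  rw [e] at h
  rw [baseField_eq]
  exact h

end

theorem mem_fieldWith {τ : Type} (y : τ → ℂ) (j : τ) : IsAlgebraic (fieldWith y) (y j) :=
  isAlgebraic_algebraMap (⟨y j, IntermediateField.subset_adjoin _ _ ⟨j, rfl⟩⟩ : fieldWith y)

theorem t_of_zeta {r : ℕ} {y : Fin r → ℂ} (hpi : IsAlgebraic (fieldWith y) (Real.pi : ℂ)) {n : ℕ} (hn : n ≠ 0)
    (h : IsAlgebraic (fieldWith y) (riemannZeta n)) : IsAlgebraic (fieldWith y) (t n) := by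
  rw [alg_iff] at hpi h ⊢
  exact (clf KB _).div_mem (zeta_even_mem hpi hn) ((clf KB _).pow_mem h 2)

theorem result :
    -- (1)
    (∀ k : ℕ, 2 ≤ k → R k 0 = riemannZeta k ∧ T k 0 = riemannZeta k ∧
      (∀ z : ℂ, R k z = 1 / (((k - 1).factorial : ℂ) * I0 z) * ∫ t in Ioi (0 : ℝ),
        ((t ^ (k - 1) / (Real.exp t - 1) : ℝ) : ℂ) * I0 (z * Complex.exp (-t / 2))) ∧
      ∀ x : ℂ, T k x = 1 / ((k - 1).factorial : ℂ) * ∫ t in Ioi (0 : ℝ),
        ((t ^ (k - 1) / (Real.exp t - 1) : ℝ) : ℂ) * Complex.exp (-x * (1 - Complex.exp (-t)))) ∧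
    ∀ Z X : Set ℂ, DifferentSquares Z → NoOpposite X →
      -- (2)
      (∀ (r : ℕ) (y : Fin r → ℂ) (N : Set ℕ), IsAlgebraic (fieldWith y) (Real.pi : ℂ) →
        (∀ n ∈ N, 3 ≤ n ∧ Odd n ∧ IsAlgebraic (fieldWith y) (t n)) →
        (exceptional y N (points Z X)).encard ≤ (r : ℕ∞) ∧
        (∀ (A : Finset Point) (B : Finset ℕ), (A : Set Point) ⊆ points Z X → (B : Set ℕ) ⊆ N →
          (∀ p ∈ A, ∀ n ∈ B, D p n ≠ 0) →
          ((A.card * (2 * B.card) : ℕ) : Cardinal) ≤ (r : Cardinal) + ∑ p ∈ A, Algebra.trdeg (fieldWith y)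
            (IntermediateField.adjoin (fieldWith y) {w | ∃ n ∈ B, ∃ b, w = quotient p n b})) ∧
        (algebraicOnes y N (points Z X)).encard ≤ (r : ℕ∞) ∧
        ∀ S : Finset (Point × ℕ × Bool), (S : Set (Point × ℕ × Bool)) ⊆ names N (points Z X) → (S.card : Cardinal) ≤
          Algebra.trdeg baseField (IntermediateField.adjoin baseField (range y ∪ value '' (S : Set (Point × ℕ × Bool))))) ∧
      -- (3)
      (∀ (m : ℕ) (n : Fin m → ℕ), (∀ i, 3 ≤ n i ∧ Odd (n i)) →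
        (exceptional (zetas n) (range n) (points Z X)).encard ≤ ((m + 1 : ℕ) : ℕ∞) ∧
        (algebraicOnes (constants n) (range n) (points Z X)).encard ≤ ((m + 1 : ℕ) : ℕ∞)) ∧
      -- (4)
      ∀ N : Set ℕ, (∀ n ∈ N, 3 ≤ n ∧ Odd n ∧ IsAlgebraic (fieldWith fun _ : Fin 1 => (Real.pi : ℂ)) (t n)) →
        (exceptional (fun _ : Fin 1 => (Real.pi : ℂ)) N (points Z X)).encard ≤ 1 ∧
        (algebraicOnes (fun _ : Fin 1 => (Real.pi : ℂ)) N (points Z X)).encard ≤ 1 := by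
  refine ⟨fun k hk => ⟨RT_zero hk, PT_zero' hk, fun z => ?_, fun x => ?_⟩, fun Z X hZ hX => ⟨fun r y N hpi hN =>
    ⟨exceptional_le hpi hN hZ hX, fun A B hA hB h0 => defects hpi hN hZ hX A B hA hB h0, count hpi hN hZ hX,
      fun S hS => degree hpi hN hZ hX S hS⟩, fun m n hn => ?_,
    fun N hN => ?_⟩⟩
  · obtain ⟨m, rfl⟩ : ∃ m, k = m + 1 := ⟨k - 1, by omega⟩
    exact RT_eq_integral (by omega) z
  · obtain ⟨m, rfl⟩ : ∃ m, k = m + 1 := ⟨k - 1, by omega⟩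
    exact PT_eq_integral (by omega) x
  · have h1 : IsAlgebraic (fieldWith (zetas n)) (Real.pi : ℂ) := mem_fieldWith (zetas n) 0
    have h2 : ∀ i, IsAlgebraic (fieldWith (zetas n)) (riemannZeta (n i)) := fun i => mem_fieldWith (zetas n) i.succ
    have h3 : IsAlgebraic (fieldWith (constants n)) (Real.pi : ℂ) := mem_fieldWith (constants n) 0
    have h4 : ∀ i, IsAlgebraic (fieldWith (constants n)) (t (n i)) := fun i => mem_fieldWith (constants n) i.succ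
    refine ⟨exceptional_le h1 ?_ hZ hX, count h3 ?_ hZ hX⟩
    · rintro _ ⟨i, rfl⟩
      exact ⟨(hn i).1, (hn i).2, t_of_zeta h1 (by have := (hn i).1; omega) (h2 i)⟩
    · rintro _ ⟨i, rfl⟩
      exact ⟨(hn i).1, (hn i).2, h4 i⟩
  · have h1 := mem_fieldWith (fun _ : Fin 1 => (Real.pi : ℂ)) 0
    have h2 := exceptional_le h1 hN hZ hX
    have h3 := count h1 hN hZ hX
    rw [Nat.cast_one] at h2 h3
    exact ⟨h2, h3⟩

end Pool.Agent.Results.MP_f1a024_nt.BesselDampedQuotients
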