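import Mathlib
import Pool.Agent.H18.Mo.Quo

set_option autoImplicit false

/-!
# `ζ(2n) / ζ(n)²` and all moments of the tails of `ζ(n)` at a Poisson distributed index

Let `t(n) = ζ(2n) / ζ(n)²`. For a complex number `x` let `E_x` be the Poisson mean, `E_x(c_J) = exp (-x) * ∑_j x^j/j! * c_j`. Put

* `S_s(x) = E_x(∑_{J ≥ b_1 > b_2 > … > b_m ≥ 1} 1 / (b_1^{s_1} ⋯ b_m^{s_m}))` for a sequence `s = (s_1, …, s_m)`, the mean of the
  multiple harmonic sum;
* `E_M(x) = E_x(∏_{k ∈ M} ∑_{a > J} 1/a^k)` for a finite multiset `M` of integers `k ≥ 2`, the mixed moments of the tails of the zeta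
  values, and `t_M(x) = (∏_{k ∈ M} ζ(2k)) / E_M(x)²`.

(1) `E_M(0) = ∏_{k ∈ M} ζ(k)` and `t_M(0) = ∏_{k ∈ M} t(k)`, and `E_{k}(x) = ζ(k) - S_{(k)}(x)`. So `t_{n}`, `t_{n,n}`, … are functions
with the values `t(n)`, `t(n)²`, … at `0`.

For complex numbers `a_1, …, a_n` with `a_n ≠ 0` let `I(a_1, …, a_n)` be the iterated integral of the forms
`ω_{a_1}(t_1), …, ω_{a_n}(t_n)` over `1 > t_1 > … > t_n > 0`, where `ω_0 = dt / t` and `ω_a = (exp (a t) - 1) dt / t` for `a ≠ 0`.
Let `𝓚` be the field which is generated by all algebraic numbers, all numbers `exp b`, `b` algebraic, and all numbers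
`I(a_1, …, a_n)` with algebraic `a_1, …, a_n`, no two nonzero ones of which have sum zero.

Let `X` be a set of algebraic numbers such that `x + x' ≠ 0` for all `x, x'` in `X` (for example the positive algebraic numbers).

(2) The Poisson means `S_s(x)` of all multiple harmonic sums with exponents at least two (`s` a nonempty finite sequence of integers
`≥ 2`, `x ∈ X`) are algebraically independent over `𝓚`.

(3) Let `y_1, …, y_r` be complex numbers and `N` a set of odd integers `n ≥ 3` such that `π` and the `t(n)`, `n ∈ N`, are algebraic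
over `L = 𝓚(y_1, …, y_r)`. Let `𝓜` be the set of the nonempty finite multisets `M` of integers `k ≥ 2` which are even or in `N`. For all
but at most `r` points `x` in `X` all the moments `E_M(x)`, `M ∈ 𝓜`, are algebraically independent over `L`, and so are all the quotients
`t_M(x)`, `M ∈ 𝓜`. At most `r` of the numbers `y_1, …, y_r` and of all the numbers `t_M(x)` (`x ∈ X`, `M ∈ 𝓜`) are algebraic
over `𝓚` (the case `E_M(x) = 0`, where `t_M(x)` is read as `0`, is counted as well), and for every `m` the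
numbers `y_1, …, y_r` and any `m` of the numbers `t_M(x)` generate a field of transcendence degree at least `m` over `𝓚`.

(4) So for odd integers `n_1, …, n_m ≥ 3` and `N = {n_1, …, n_m}`, for all but at most `m + 1` points `x` in `X` the `E_M(x)`, `M ∈ 𝓜`,
are algebraically independent over `𝓚(π, ζ(n_1), …, ζ(n_m))`, and so are the `t_M(x)`; and at most `m + 1` of the
numbers `π, t(n_1), …, t(n_m)` and of all the `t_M(x)` are algebraic over `𝓚`.

(5) Let `N` be a set of odd integers `n ≥ 3` for which `t(n)` is algebraic over `𝓚(π)` (for example rational). For all but at most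
one point `x` in `X` all the `E_M(x)`, `M ∈ 𝓜`, are algebraically independent over `𝓚(π)`, and so are the `t_M(x)`; and at most one of
`π` and of all the `t_M(x)` is algebraic over `𝓚`.

The proof of (2): `exp (-x X) ∑ (multiple harmonic sum) (x X)^n / n!` is a combination of iterated integrals of the forms with the
letters `x`, `-x`, `0`; its main word is `w_s = (-x, 0^(s_1-2), x, -x, 0^(s_2-2), x, …, -x, 0^(s_m-2), x)`, all other words contain `x` or `-x`
less than `m` times. Let `e`, `f`, `∂_0` be the derivations of the shuffle algebra which remove a leading letter `x`, `-x`, `0`. All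
derivations in the Lie algebra generated by `e`, `f`, `∂_0` which are of degree `m` in `e` and `f` kill `𝓚`, the sums of smaller depth and the
other points, and they separate the words `w_s` of depth `m`: if the zeros `0^p` between the letters are written as monomials `z^p`, a
derivation of degree `(m, m+1)` acts as a polynomial in `z_1, …, z_m, t`, and brackets with the degree one elements show that the possible
polynomials form a space `V` which contains `(t^b - z_m^b) z^p` and `z_1^0 z_2^{p_1} ⋯ z_m^{p_{m-1}} t^q + z_1^{p_1} ⋯ z_m^{p_{m-1}…}`; iterating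
the second relation gives all monomials. The values of the shuffle algebra are described by the method of Siegel and Shidlovskii
(run `N902/EW` of the library). (3) follows from (2) with the quasi-shuffle product and an exchange argument.
-/

namespace Pool.Agent.Results.MP_f1a024_nt.MomentsOfZetaTails

open Set

/-- `E_x(c_J) = exp (-x) * ∑_j x^j/j! * c_j` -/
noncomputable def poissonMean (x : ℂ) (c : ℕ → ℂ) : ℂ := Complex.exp (-x) * ∑' j : ℕ, x ^ j / j.factorial * c j

/-- the tail `∑_{a > j} 1/a^k` -/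
noncomputable def tail (k j : ℕ) : ℂ := ∑' i : ℕ, 1 / ((i : ℂ) + j + 1) ^ k

/-- the multiple harmonic sum `∑_{j ≥ b_1 > … > b_m ≥ 1} 1 / (b_1^{s_1} ⋯ b_m^{s_m})` -/
noncomputable def multipleHarmonic : List ℕ → ℕ → ℂ
  | [], _ => 1
  | k :: s, j => ∑ b ∈ Finset.range j, multipleHarmonic s b / ((b : ℂ) + 1) ^ k

/-- `S_s(x)` -/
noncomputable def S (s : List ℕ) (x : ℂ) : ℂ := poissonMean x fun j => multipleHarmonic s j

/-- `E_M(x)` -/
noncomputable def moment (M : Multiset ℕ) (x : ℂ) : ℂ := poissonMean x fun j => (M.map fun k => tail k j).prod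

/-- `t_M(x)` -/
noncomputable def quotient (M : Multiset ℕ) (x : ℂ) : ℂ :=
  (M.map fun k => riemannZeta ((2 * k : ℕ) : ℂ)).prod / moment M x ^ 2

/-- the iterated integral of `ω_{a_1}(t_1), …, ω_{a_n}(t_n)` over `t > t_1 > … > t_n > 0` -/
noncomputable def iterated : List ℂ → ℝ → ℂ
  | [], _ => 1
  | a :: v, t => ∫ s in (0 : ℝ)..t, (if a = 0 then 1 else Complex.exp (a * s) - 1) * iterated v s / s

/-- `I(a_1, …, a_n)` -/
noncomputable def I (w : List ℂ) : ℂ := iterated w 1

/-- the entries are algebraic, the last one is not zero, no two nonzero entries have sum zero -/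
def Admissible (w : List ℂ) : Prop :=
  (∀ a ∈ w, IsAlgebraic ℚ a) ∧ (∀ h : w ≠ [], w.getLast h ≠ 0) ∧ ∀ a ∈ w, a ≠ 0 → -a ∉ w

/-- the field `𝓚` -/
noncomputable def baseField : IntermediateField ℚ ℂ := IntermediateField.adjoin ℚ
  ({z | IsAlgebraic ℚ z} ∪ {z | ∃ b : ℂ, IsAlgebraic ℚ b ∧ z = Complex.exp b} ∪
    {z | ∃ w : List ℂ, Admissible w ∧ z = I w})

/-- the field `𝓚(y_1, …, y_r)` -/
noncomputable def fieldWith {r : ℕ} (y : Fin r → ℂ) : IntermediateField baseField ℂ :=
  IntermediateField.adjoin baseField (range y)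

/-- `t(n)` -/
noncomputable def t (n : ℕ) : ℂ := riemannZeta ((2 * n : ℕ) : ℂ) / riemannZeta n ^ 2

/-- algebraic numbers `x` such that `x + x' ≠ 0` for all `x, x'` in the set -/
def NoOpposite (X : Set ℂ) : Prop := ∀ x ∈ X, IsAlgebraic ℚ x ∧ ∀ x' ∈ X, x + x' ≠ 0

/-- the nonempty multisets of integers `k ≥ 2` which are even or in `N` -/
def Allowed (N : Set ℕ) (M : Multiset ℕ) : Prop := M ≠ 0 ∧ ∀ k ∈ M, 2 ≤ k ∧ (Even k ∨ k ∈ N)

/-- the indices of the numbers `S_s(x)`, `s` a nonempty sequence of integers `≥ 2`, `x ∈ X` -/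
abbrev Index (X : Set ℂ) : Type := {p : ℂ × List ℕ // p.1 ∈ X ∧ p.2 ≠ [] ∧ ∀ k ∈ p.2, 2 ≤ k}

/-- the numbers `S_s(x)` -/
noncomputable def means (X : Set ℂ) : Index X → ℂ := fun p => S p.1.2 p.1.1

/-- the points `x` for which the `E_M(x)`, `M ∈ 𝓜`, or the `t_M(x)`, `M ∈ 𝓜`, are not algebraically independent over
`𝓚(y_1, …, y_r)` -/
def exceptional {r : ℕ} (y : Fin r → ℂ) (N : Set ℕ) (X : Set ℂ) : Set ℂ :=
  {x | x ∈ X ∧ ¬ (AlgebraicIndependent (fieldWith y) (fun M : {M : Multiset ℕ // Allowed N M} => moment M.1 x) ∧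
    AlgebraicIndependent (fieldWith y) (fun M : {M : Multiset ℕ // Allowed N M} => quotient M.1 x))}

/-- the names of the numbers `t_M(x)` with `x ∈ X` and `M ∈ 𝓜` -/
def names (N : Set ℕ) (X : Set ℂ) : Set (ℂ × Multiset ℕ) := {q | q.1 ∈ X ∧ Allowed N q.2}

/-- the value -/
noncomputable def value (q : ℂ × Multiset ℕ) : ℂ := quotient q.2 q.1

/-- the indices `j` for which `y_j` is algebraic over `𝓚`, and the names of the `t_M(x)` which are algebraic over `𝓚` -/
def algebraicOnes {r : ℕ} (y : Fin r → ℂ) (N : Set ℕ) (X : Set ℂ) : Set (Fin r ⊕ (ℂ × Multiset ℕ)) :=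
  {i | Sum.elim (fun j => IsAlgebraic baseField (y j)) (fun q => q ∈ names N X ∧ IsAlgebraic baseField (value q)) i}

/-- the numbers `π, t(n_1), …, t(n_m)` -/
noncomputable def constants {m : ℕ} (n : Fin m → ℕ) : Fin (m + 1) → ℂ := Fin.cons (Real.pi : ℂ) fun i => t (n i)

/-- the numbers `π, ζ(n_1), …, ζ(n_m)` -/
noncomputable def zetas {m : ℕ} (n : Fin m → ℕ) : Fin (m + 1) → ℂ := Fin.cons (Real.pi : ℂ) fun i => riemannZeta (n i)

open Pool.Agent.N902.EW Pool.Agent.H18.Mo
open Pool.Agent.H18.Sq (zeta_even_mem zeta_ne_zero')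

theorem iterated_eq (w : List ℂ) : ∀ t : ℝ, iterated w t = II w t := by
  induction w with
  | nil => intro t; rfl
  | cons a v ih =>
    intro t
    rw [iterated, II]
    refine intervalIntegral.integral_congr fun s _ => ?_
    show (if a = 0 then 1 else Complex.exp (a * s) - 1) * iterated v s / s = _
    rw [ih]

theorem baseField_eq : baseField = KK := by
  rw [baseField, KK]
  congr 2
  ext z
  constructor
  · rintro ⟨w, hw, rfl⟩
    exact ⟨w, ⟨hw.1, hw.2.1⟩, hw.2.2, iterated_eq w 1⟩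
  · rintro ⟨w, hw, hno, rfl⟩
    exact ⟨w, ⟨hw.1, hw.2, hno⟩, (iterated_eq w 1).symm⟩

theorem mh_eq (s : List ℕ) : ∀ j : ℕ, multipleHarmonic s j = mh s j := by
  induction s with
  | nil => intro j; rfl
  | cons k s ih =>
    intro j
    rw [multipleHarmonic, mh_cons]
    exact Finset.sum_congr rfl fun b _ => by rw [ih]

theorem S_eq (s : List ℕ) (x : ℂ) : S s x = Pool.Agent.H18.Pr.Em x (mh s) := by
  unfold S
  rw [funext (mh_eq s)]
  rfl

theorem moment_eq (M : Multiset ℕ) (x : ℂ) : moment M x = TM M x := rfl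

theorem quotient_eq (M : Multiset ℕ) (x : ℂ) : quotient M x = UQ M x := rfl

theorem allowed_iff (N : Set ℕ) (M : Multiset ℕ) : Allowed N M ↔ Am N M := Iff.rfl

theorem alg_iff {r : ℕ} (y : Fin r → ℂ) (z : ℂ) : IsAlgebraic (fieldWith y) z ↔ z ∈ clf KK (range y) := by
  rw [mem_clf]
  unfold fieldWith
  rw [baseField_eq]

theorem alg_iff' (z : ℂ) : IsAlgebraic baseField z ↔ IsAlgebraic KK z := by
  rw [baseField_eq]

theorem ind_iff {r : ℕ} (y : Fin r → ℂ) {ι : Type} (z : ι → ℂ) : AlgebraicIndependent (fieldWith y) z ↔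
    AlgebraicIndependent (IntermediateField.adjoin KK (range y)) z := by
  unfold fieldWith
  rw [baseField_eq]

theorem poisson_zero (c : ℕ → ℂ) : poissonMean 0 c = c 0 := by
  rw [poissonMean, tsum_eq_single 0]
  · simp
  · intro j hj
    rw [zero_pow hj]
    simp

theorem tail_zero {k : ℕ} (hk : 2 ≤ k) : tail k 0 = riemannZeta k := by
  rw [tail, zeta_eq hk]
  exact tsum_congr fun i => by simp

section

variable {X : Set ℂ} {N : Set ℕ} {r : ℕ} {y : Fin r → ℂ}

theorem zeta_alg (hpi : IsAlgebraic (fieldWith y) (Real.pi : ℂ))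
    (hN : ∀ n ∈ N, 3 ≤ n ∧ Odd n ∧ IsAlgebraic (fieldWith y) (t n)) : ∀ n ∈ N, riemannZeta n ∈ clf KK (range y) := by
  intro n hn
  obtain ⟨h3, -, ht⟩ := hN n hn
  rw [alg_iff] at hpi ht
  have h1 : riemannZeta ((2 * n : ℕ) : ℂ) ∈ clf KK (range y) := zeta_even_mem hpi (by omega)
  have h4 : riemannZeta ((2 * n : ℕ) : ℂ) ≠ 0 := zeta_ne_zero' (by omega)
  have h5 : riemannZeta (n : ℂ) ≠ 0 := zeta_ne_zero' (by omega)
  have h6 := (clf KK _).div_mem h1 ht
  have h7 : riemannZeta ((2 * n : ℕ) : ℂ) / t n = riemannZeta n ^ 2 := by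
    rw [t]; field_simp
  rw [h7] at h6
  exact clf_pow two_ne_zero h6

theorem odd_of (hN : ∀ n ∈ N, 3 ≤ n ∧ Odd n ∧ IsAlgebraic (fieldWith y) (t n)) : ∀ n ∈ N, 3 ≤ n ∧ Odd n :=
  fun n hn => ⟨(hN n hn).1, (hN n hn).2.1⟩

theorem exceptional_le (hpi : IsAlgebraic (fieldWith y) (Real.pi : ℂ))
    (hN : ∀ n ∈ N, 3 ≤ n ∧ Odd n ∧ IsAlgebraic (fieldWith y) (t n)) (hX : NoOpposite X) :
    (exceptional y N X).encard ≤ (r : ℕ∞) := by
  refine le_trans (encard_le_encard ?_) (exc_q (X := X) (N := N) (y := y) hX ((alg_iff _ _).1 hpi) (zeta_alg hpi hN))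
  rintro x ⟨hx, hx'⟩
  rw [ind_iff, ind_iff] at hx'
  exact ⟨hx, hx'⟩

/-- the names as names of the counting theorem -/
def dec : Nq X N → ℂ × Multiset ℕ := fun q => q.1

theorem value_dec (i : Nq X N) : value (dec i) = UQ i.1.2 i.1.1 := rfl

theorem dec_surj {i : ℂ × Multiset ℕ} (h : i ∈ names N X) : ∃ j : Nq X N, dec j = i := ⟨⟨i, h⟩, rfl⟩

theorem count (hpi : IsAlgebraic (fieldWith y) (Real.pi : ℂ))
    (hN : ∀ n ∈ N, 3 ≤ n ∧ Odd n ∧ IsAlgebraic (fieldWith y) (t n)) (hX : NoOpposite X) :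
    (algebraicOnes y N X).encard ≤ (r : ℕ∞) := by
  refine le_trans ?_ (count_q (X := X) (N := N) (y := y) hX ((alg_iff _ _).1 hpi) (zeta_alg hpi hN))
  refine le_trans (encard_le_encard ?_) (encard_image_le (Sum.map id (dec (X := X) (N := N))) _)
  rintro (j | i) hi
  · exact ⟨Sum.inl j, (alg_iff' _).1 hi, rfl⟩
  · obtain ⟨h1, h2⟩ := hi
    obtain ⟨i', rfl⟩ := dec_surj h1
    refine ⟨Sum.inr i', ?_, rfl⟩
    show IsAlgebraic KK (UQ i'.1.2 i'.1.1)
    rw [← value_dec]
    exact (alg_iff' _).1 h2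

theorem degree (hpi : IsAlgebraic (fieldWith y) (Real.pi : ℂ))
    (hN : ∀ n ∈ N, 3 ≤ n ∧ Odd n ∧ IsAlgebraic (fieldWith y) (t n)) (hX : NoOpposite X)
    (A : Finset (ℂ × Multiset ℕ)) (hA : (A : Set (ℂ × Multiset ℕ)) ⊆ names N X) :
    (A.card : Cardinal) ≤ Algebra.trdeg baseField
      (IntermediateField.adjoin baseField (range y ∪ value '' (A : Set (ℂ × Multiset ℕ)))) := by
  classical
  choose f hf using fun i : A => dec_surj (hA i.2)
  have hfi : Function.Injective f := by
    intro i j hij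
    apply Subtype.ext
    rw [← hf i, ← hf j, hij]
  have h := trdeg_q (X := X) (N := N) (y := y) hX ((alg_iff _ _).1 hpi) (zeta_alg hpi hN)
    (Finset.univ.map ⟨f, hfi⟩)
  rw [Finset.card_map, Finset.card_univ, Fintype.card_coe] at h
  have e : (fun q : Nq X N => UQ q.1.2 q.1.1) '' ((Finset.univ.map ⟨f, hfi⟩ : Finset (Nq X N)) : Set (Nq X N)) =
      value '' (A : Set (ℂ × Multiset ℕ)) := by
    ext z
    constructor
    · rintro ⟨i, hi, rfl⟩
      simp only [Finset.coe_map, Finset.coe_univ, image_univ, mem_range, Function.Embedding.coeFn_mk] at hi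
      obtain ⟨j, rfl⟩ := hi
      refine ⟨j, j.2, ?_⟩
      show value j.1 = UQ (f j).1.2 (f j).1.1
      rw [← value_dec, hf]
    · rintro ⟨i, hi, rfl⟩
      refine ⟨f ⟨i, hi⟩, ?_, ?_⟩
      · simp
      · show UQ (f ⟨i, hi⟩).1.2 (f ⟨i, hi⟩).1.1 = value i
        rw [← value_dec, hf]
  rw [e] at h
  rw [baseField_eq]
  exact h

end

theorem mem_fieldWith {r : ℕ} (y : Fin r → ℂ) (j : Fin r) : IsAlgebraic (fieldWith y) (y j) :=
  isAlgebraic_algebraMap (⟨y j, IntermediateField.subset_adjoin _ _ ⟨j, rfl⟩⟩ : fieldWith y)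

theorem t_of_zeta {r : ℕ} {y : Fin r → ℂ} (hpi : IsAlgebraic (fieldWith y) (Real.pi : ℂ)) {n : ℕ} (hn : n ≠ 0)
    (h : IsAlgebraic (fieldWith y) (riemannZeta n)) : IsAlgebraic (fieldWith y) (t n) := by
  rw [alg_iff] at hpi h ⊢
  exact (clf KK _).div_mem (zeta_even_mem hpi hn) ((clf KK _).pow_mem h 2)

theorem result :
    -- (1)
    (∀ M : Multiset ℕ, (∀ k ∈ M, 2 ≤ k) → moment M 0 = (M.map fun k : ℕ => riemannZeta (k : ℂ)).prod ∧ quotient M 0 = (M.map t).prod) ∧
    (∀ k : ℕ, 2 ≤ k → ∀ x : ℂ, moment {k} x = riemannZeta k - S [k] x) ∧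
    ∀ X : Set ℂ, NoOpposite X →
      -- (2)
      AlgebraicIndependent baseField (means X) ∧
      -- (3)
      (∀ (r : ℕ) (y : Fin r → ℂ) (N : Set ℕ), IsAlgebraic (fieldWith y) (Real.pi : ℂ) →
        (∀ n ∈ N, 3 ≤ n ∧ Odd n ∧ IsAlgebraic (fieldWith y) (t n)) →
        (exceptional y N X).encard ≤ (r : ℕ∞) ∧
        (algebraicOnes y N X).encard ≤ (r : ℕ∞) ∧
        ∀ A : Finset (ℂ × Multiset ℕ), (A : Set (ℂ × Multiset ℕ)) ⊆ names N X → (A.card : Cardinal) ≤
          Algebra.trdeg baseField (IntermediateField.adjoin baseField (range y ∪ value '' (A : Set (ℂ × Multiset ℕ))))) ∧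
      -- (4)
      (∀ (m : ℕ) (n : Fin m → ℕ), (∀ i, 3 ≤ n i ∧ Odd (n i)) →
        (exceptional (zetas n) (range n) X).encard ≤ ((m + 1 : ℕ) : ℕ∞) ∧
        (algebraicOnes (constants n) (range n) X).encard ≤ ((m + 1 : ℕ) : ℕ∞)) ∧
      -- (5)
      ∀ N : Set ℕ, (∀ n ∈ N, 3 ≤ n ∧ Odd n ∧ IsAlgebraic (fieldWith fun _ : Fin 1 => (Real.pi : ℂ)) (t n)) →
        (exceptional (fun _ : Fin 1 => (Real.pi : ℂ)) N X).encard ≤ 1 ∧
        (algebraicOnes (fun _ : Fin 1 => (Real.pi : ℂ)) N X).encard ≤ 1 := by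
  have hm0 : ∀ M : Multiset ℕ, (∀ k ∈ M, 2 ≤ k) → moment M 0 = (M.map fun k : ℕ => riemannZeta (k : ℂ)).prod := by
    intro M hM
    rw [moment, poisson_zero]
    congr 1
    exact Multiset.map_congr rfl fun k hk => tail_zero (hM k hk)
  refine ⟨fun M hM => ⟨hm0 M hM, ?_⟩, fun k hk x => ?_, fun X hX => ⟨?_, fun r y N hpi hN =>
    ⟨exceptional_le hpi hN hX, count hpi hN hX, fun A hA => degree hpi hN hX A hA⟩, fun m n hn => ?_, fun N hN => ?_⟩⟩
  · rw [quotient, hm0 M hM, ← Multiset.prod_map_pow, ← Multiset.prod_map_div]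
    rfl
  · have h1 := zeta_split hk x
    have h2 : moment {k} x = PT k x := by
      unfold moment poissonMean PT
      congr 1
      refine tsum_congr fun j => ?_
      show x ^ j / (j.factorial : ℂ) * (Multiset.map (fun k => tail k j) {k}).prod = _
      rw [Multiset.map_singleton, Multiset.prod_singleton, tail]
    have h3 : S [k] x = PS k x := by
      unfold S poissonMean PS
      congr 1
    rw [h2, h3, h1]
    ring
  · rw [baseField_eq]
    have h := ai_mh X hX
    have e : means X = fun p : IL X => Pool.Agent.H18.Pr.Em p.1.1 (mh p.1.2) := by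
      funext p
      exact S_eq _ _
    rw [e]
    exact h
  · have h1 : IsAlgebraic (fieldWith (zetas n)) (Real.pi : ℂ) := mem_fieldWith (zetas n) 0
    have h2 : ∀ i, IsAlgebraic (fieldWith (zetas n)) (riemannZeta (n i)) := fun i => mem_fieldWith (zetas n) i.succ
    have h3 : IsAlgebraic (fieldWith (constants n)) (Real.pi : ℂ) := mem_fieldWith (constants n) 0
    have h4 : ∀ i, IsAlgebraic (fieldWith (constants n)) (t (n i)) := fun i => mem_fieldWith (constants n) i.succ
    constructor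
    · refine exceptional_le h1 ?_ hX
      rintro _ ⟨i, rfl⟩
      have := hn i
      exact ⟨this.1, this.2, t_of_zeta h1 (by omega) (h2 i)⟩
    · refine count h3 ?_ hX
      rintro _ ⟨i, rfl⟩
      have := hn i
      exact ⟨this.1, this.2, h4 i⟩
  · have h1 := mem_fieldWith (fun _ : Fin 1 => (Real.pi : ℂ)) 0
    exact ⟨by exact_mod_cast exceptional_le h1 hN hX, by exact_mod_cast count h1 hN hX⟩

end Pool.Agent.Results.MP_f1a024_nt.MomentsOfZetaTails
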